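import Pool.Agent.Helper21.HG.Part

/-!
# The primes without congruence roots (project HG, block DER)
-/

set_option autoImplicit false

open NumberField Filter Topology IsDedekindDomain MulAction
open scoped Pointwise

namespace Pool.Agent.Helper22.HG

open Pool.Agent.HG Pool.Agent.Helper70.Art Pool.Agent.H53SCD Pool.Agent.Helper21.HG

noncomputable section

/-- A group acting on at most four points without common fixed point has an element without fixed point. -/
theorem exists_free {G Ω : Type*} [Group G] [Finite G] [Finite Ω] [MulAction G Ω] (h4 : Nat.card Ω ≤ 4)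
    (hfix : ∀ ω : Ω, ∃ g : G, g • ω ≠ ω) : ∃ g : G, ∀ ω : Ω, g • ω ≠ ω := by
  classical
  have := Fintype.ofFinite G
  have := Fintype.ofFinite Ω
  rw [Nat.card_eq_fintype_card] at h4
  by_contra hcon
  push Not at hcon
  set n : G → ℕ := fun g => Fintype.card (fixedBy Ω g) with hn
  have hsum : ∑ g : G, n g = Fintype.card (Quotient (orbitRel G Ω)) * Fintype.card G :=
    sum_card_fixedBy_eq_card_orbits_mul_card_group G Ω
  have hn1 : n 1 = Fintype.card Ω := by
    simp only [hn]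
    exact Fintype.card_congr ((Equiv.setCongr (fixedBy_one_eq_univ Ω G)).trans (Equiv.Set.univ Ω))
  set q : ℕ := Fintype.card (Quotient (orbitRel G Ω)) with hq
  -- every orbit has at least two elements
  have h2q : 2 * q ≤ Fintype.card Ω := by
    have h1 : ∀ x : Quotient (orbitRel G Ω), 2 ≤ (Finset.univ.filter fun ω : Ω => (Quotient.mk'' ω : Quotient (orbitRel G Ω)) = x).card := by
      intro x
      obtain ⟨ω, rfl⟩ := Quotient.exists_rep x
      obtain ⟨g, hg⟩ := hfix ω
      have h3 : ({g • ω, ω} : Finset Ω) ⊆ Finset.univ.filter fun ω' : Ω => (Quotient.mk'' ω' : Quotient (orbitRel G Ω)) = Quotient.mk'' ω := by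
        intro z hz
        rw [Finset.mem_insert, Finset.mem_singleton] at hz
        rw [Finset.mem_filter]
        refine ⟨Finset.mem_univ _, ?_⟩
        rcases hz with rfl | rfl
        · apply Quotient.sound'
          rw [orbitRel_apply]
          exact mem_orbit ω g
        · rfl
      have h5 := Finset.card_le_card h3
      rw [Finset.card_pair hg] at h5
      exact h5
    have h3 : Fintype.card Ω = ∑ x : Quotient (orbitRel G Ω),
        (Finset.univ.filter fun ω : Ω => (Quotient.mk'' ω : Quotient (orbitRel G Ω)) = x).card := by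
      rw [← Finset.card_univ]
      exact Finset.card_eq_sum_card_fiberwise (fun _ _ => Finset.mem_coe.2 (Finset.mem_univ _))
    rw [h3, hq, ← Finset.card_univ, mul_comm, ← smul_eq_mul, ← Finset.sum_const]
    exact Finset.sum_le_sum fun x _ => h1 x
  have hG : 0 < Fintype.card G := Fintype.card_pos
  obtain ⟨ω₀, -⟩ := hcon 1
  have hq0 : 1 ≤ q := by
    rw [hq]
    exact Fintype.card_pos_iff.2 ⟨Quotient.mk'' ω₀⟩
  have hn0 : ∀ g, 1 ≤ n g := by
    intro g
    obtain ⟨ω, hω⟩ := hcon g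
    exact Fintype.card_pos_iff.2 ⟨⟨ω, hω⟩⟩
  rcases Nat.lt_or_ge q 2 with hq2 | hq2
  · -- one orbit
    have h1 : ∑ g : G, 1 < ∑ g : G, n g :=
      Finset.sum_lt_sum (fun g _ => hn0 g) ⟨1, Finset.mem_univ _, by rw [hn1]; omega⟩
    have h2 : q = 1 := by omega
    rw [hsum, h2, one_mul, Finset.sum_const, Finset.card_univ, smul_eq_mul, mul_one] at h1
    exact lt_irrefl _ h1
  · -- two orbits of two elements
    have hn2 : ∀ g, 2 ≤ n g := by
      intro g
      by_contra hlt
      obtain ⟨ω, hω⟩ := hcon g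
      have huniq : ∀ z : Ω, g • z = z → z = ω := by
        intro z hz
        by_contra hne
        apply hlt
        exact Fintype.one_lt_card_iff.2 ⟨⟨z, hz⟩, ⟨ω, hω⟩, fun h => hne (congrArg Subtype.val h)⟩
      obtain ⟨h, hh⟩ := hfix ω
      set ω' := h • ω with hω'
      have g1 : g • ω' ≠ ω' := fun e => hh (huniq _ e)
      have g2 : g • ω' ≠ ω := by
        intro e
        apply hh
        have : g • ω' = g • ω := by rw [e, hω]
        exact smul_left_cancel g this
      -- an element outside the orbit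
      obtain ⟨w, hw⟩ : ∃ w : Ω, w ∉ orbit G ω := by
        by_contra hall
        push Not at hall
        have : Fintype.card (Quotient (orbitRel G Ω)) ≤ 1 := by
          rw [Fintype.card_le_one_iff]
          intro x y
          obtain ⟨x, rfl⟩ := Quotient.exists_rep x
          obtain ⟨y, rfl⟩ := Quotient.exists_rep y
          have e1 : (Quotient.mk'' x : Quotient (orbitRel G Ω)) = Quotient.mk'' ω :=
            Quotient.sound' (orbitRel_apply.2 (hall x))
          have e2 : (Quotient.mk'' y : Quotient (orbitRel G Ω)) = Quotient.mk'' ω :=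
            Quotient.sound' (orbitRel_apply.2 (hall y))
          exact e1.trans e2.symm
        omega
      obtain ⟨h', hh'⟩ := hfix w
      set w' := h' • w with hw'
      have hwo' : w' ∉ orbit G ω := by
        intro hmem
        apply hw
        have h3 : h'⁻¹ • w' ∈ orbit G ω := by
          rw [← orbit_eq_iff.2 hmem]
          exact mem_orbit w' h'⁻¹
        rw [hw', inv_smul_smul] at h3
        exact h3
      have o1 : ω ∈ orbit G ω := mem_orbit_self ω
      have o2 : ω' ∈ orbit G ω := mem_orbit ω h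
      have o3 : g • ω' ∈ orbit G ω := by
        rw [hω', ← mul_smul]
        exact mem_orbit ω (g * h)
      have h5 : ({ω, ω', g • ω', w, w'} : Finset Ω).card = 5 := by
        rw [Finset.card_insert_of_notMem, Finset.card_insert_of_notMem, Finset.card_insert_of_notMem, Finset.card_pair]
        · exact fun e => hh' e.symm
        · rw [Finset.mem_insert, Finset.mem_singleton, not_or]
          exact ⟨fun e => hw (e ▸ o3), fun e => hwo' (e ▸ o3)⟩
        · rw [Finset.mem_insert, Finset.mem_insert, Finset.mem_singleton, not_or, not_or]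
          exact ⟨fun e => g1 e.symm, fun e => hw (e ▸ o2), fun e => hwo' (e ▸ o2)⟩
        · rw [Finset.mem_insert, Finset.mem_insert, Finset.mem_insert, Finset.mem_singleton, not_or, not_or, not_or]
          exact ⟨fun e => hh e.symm, fun e => g2 e.symm, fun e => hw (e ▸ o1), fun e => hwo' (e ▸ o1)⟩
      have h6 := Finset.card_le_univ ({ω, ω', g • ω', w, w'} : Finset Ω)
      omega
    have h1 : ∑ g : G, 2 < ∑ g : G, n g :=
      Finset.sum_lt_sum (fun g _ => hn2 g) ⟨1, Finset.mem_univ _, by rw [hn1]; omega⟩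
    have h2 : q = 2 := by omega
    rw [hsum, h2, Finset.sum_const, Finset.card_univ, smul_eq_mul, mul_comm] at h1
    exact lt_irrefl _ h1

section der

variable {k L : Type} [Field k] [NumberField k] [Field L] [NumberField L] [Algebra k L]

/-- the set of primes -/
def QD (k : Type) {L Y : Type} [Field k] [NumberField k] [Field L] [NumberField L] [Algebra k L]
    (β : Y → 𝓞 L) (m : ℕ) : Set (Pr k) :=
  {v | (nm v).Prime ∧ ¬ nm v ∣ m ∧ ∀ P : Pr L, P.asIdeal.comap (algebraMap (𝓞 k) (𝓞 L)) = v.asIdeal →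
    ∀ y, β y ^ nm v - β y ∉ P.asIdeal}

omit [NumberField k] in
theorem inP_iff (p : ℕ) [hp : Fact p.Prime] (ψ : 𝓞 k →+* ZMod p) (z : 𝓞 L) :
    InP p ψ z ↔ z ^ p - z ∈ RingHom.ker (extH L p ψ) := by
  unfold InP
  rw [mem_io_iff, RingHom.mem_ker, map_sub, map_pow, sub_eq_zero]

theorem ker_extH_comap (p : ℕ) [hp : Fact p.Prime] (ψ : 𝓞 k →+* ZMod p) :
    (RingHom.ker (extH L p ψ)).comap (algebraMap (𝓞 k) (𝓞 L)) = RingHom.ker ψ := by
  ext a
  rw [Ideal.mem_comap, RingHom.mem_ker, RingHom.mem_ker, extH_spec, map_eq_zero_iff _ (io_inj p)]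

omit [NumberField k] in
theorem ker_extH_ne_bot (p : ℕ) [hp : Fact p.Prime] (ψ : 𝓞 k →+* ZMod p) :
    RingHom.ker (extH L p ψ) ≠ ⊥ := by
  intro h
  have h1 : (p : 𝓞 L) ∈ RingHom.ker (extH L p ψ) := by
    rw [RingHom.mem_ker, map_natCast]
    have h3 : CharP (Fb p) p := charP_of_injective_algebraMap (io_inj p) p
    exact CharP.cast_eq_zero (Fb p) p
  rw [h, Ideal.mem_bot] at h1
  exact hp.out.ne_zero (by exact_mod_cast h1)

omit [NumberField k] in
/-- the prime above the kernel of `ψ` -/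
def PE (L : Type) [Field L] [NumberField L] [Algebra k L] (p : ℕ) [Fact p.Prime] (ψ : 𝓞 k →+* ZMod p) : Pr L :=
  ⟨RingHom.ker (extH L p ψ), RingHom.ker_isPrime _, ker_extH_ne_bot p ψ⟩

theorem mem_QD_iff [IsGalois k L] {Y : Type} [MulAction (L ≃ₐ[k] L) Y] (β : Y → 𝓞 L)
    (heq : ∀ (g : L ≃ₐ[k] L) y, β (g • y) = g • β y) {m : ℕ} (p : ℕ) [hp : Fact p.Prime] (hpm : ¬ p ∣ m)
    (ψ : 𝓞 k →+* ZMod p) : (homEquiv p ψ).1 ∈ QD k β m ↔ ∀ y, ¬ InP p ψ (β y) := by
  have hnm : nm (homEquiv p ψ).1 = p := (homEquiv p ψ).2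
  unfold QD
  rw [Set.mem_ofPred_eq, hnm, homEquiv_ideal]
  constructor
  · rintro ⟨-, -, h⟩ y hy
    rw [inP_iff] at hy
    exact h (PE L p ψ) (ker_extH_comap p ψ) y hy
  · intro h
    refine ⟨hp.out, hpm, fun P hP y hy => ?_⟩
    have h1 := P.isPrime
    have h2 : (RingHom.ker (extH L p ψ)).IsPrime := RingHom.ker_isPrime _
    obtain ⟨g, hg⟩ := Algebra.IsInvariant.exists_smul_of_under_eq (𝓞 k) (𝓞 L) (L ≃ₐ[k] L)
      P.asIdeal (RingHom.ker (extH L p ψ)) (by
        change P.asIdeal.comap _ = (RingHom.ker (extH L p ψ)).comap _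
        rw [hP, ker_extH_comap])
    refine h (g • y) ?_
    rw [inP_iff, heq, hg, Ideal.mem_pointwise_smul_iff_inv_smul_mem, smul_sub, smul_pow', inv_smul_smul]
    exact hy

theorem card_QD [IsGalois k L] {Y : Type} [Finite Y] [MulAction (L ≃ₐ[k] L) Y] (β : Y → 𝓞 L)
    (heq : ∀ (g : L ≃ₐ[k] L) y, β (g • y) = g • β y) {m : ℕ} (p : Nat.Primes) (hpm : ¬ (p : ℕ) ∣ m) :
    ZZ (k := k) β p = Nat.card {v : Pr k // v ∈ QD k β m ∧ nm v = (p : ℕ)} := by
  classical
  have hp : Fact (p : ℕ).Prime := ⟨p.2⟩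
  have hNN : ∀ ψ : 𝓞 k →+* ZMod (p : ℕ), NN β p ψ = 0 ↔ ∀ y, ¬ InP (p : ℕ) ψ (β y) := by
    intro ψ
    unfold NN
    rw [Nat.card_eq_zero]
    constructor
    · rintro (h | h)
      · exact fun y hy => h.elim ⟨y, hy⟩
      · exact absurd h (not_infinite_iff_finite.2 inferInstance)
    · intro h
      exact Or.inl ⟨fun z => h z.1 z.2⟩
  have h1 : ZZ (k := k) β p = Nat.card {ψ : 𝓞 k →+* ZMod (p : ℕ) // ∀ y, ¬ InP (p : ℕ) ψ (β y)} := by
    unfold ZZ
    rw [← Finset.sum_filter, Finset.sum_const, nsmul_eq_mul, mul_one, Nat.card_eq_fintype_card, Fintype.card_subtype]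
    congr 2
    ext ψ
    rw [Finset.mem_filter, Finset.mem_filter, hNN]
  rw [h1]
  congr 1
  refine Nat.card_congr (Equiv.ofBijective
    (fun ψ : {ψ : 𝓞 k →+* ZMod (p : ℕ) // ∀ y, ¬ InP (p : ℕ) ψ (β y)} =>
      (⟨(homEquiv (p : ℕ) ψ.1).1, (mem_QD_iff β heq (p : ℕ) hpm ψ.1).2 ψ.2, (homEquiv (p : ℕ) ψ.1).2⟩ :
        {v : Pr k // v ∈ QD k β m ∧ nm v = (p : ℕ)})) ⟨?_, ?_⟩)
  · intro ψ ψ' h
    have h1 : (homEquiv (p : ℕ) ψ.1).1 = (homEquiv (p : ℕ) ψ'.1).1 :=
      congrArg (fun z : {v : Pr k // v ∈ QD k β m ∧ nm v = (p : ℕ)} => z.1) h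
    exact Subtype.ext ((homEquiv (p : ℕ)).injective (Subtype.ext h1))
  · rintro ⟨v, hv, hvp⟩
    obtain ⟨ψ, hψ⟩ := (homEquiv (k := k) (p : ℕ)).surjective ⟨v, hvp⟩
    have h1 : (homEquiv (p : ℕ) ψ).1 = v := congrArg Subtype.val hψ
    refine ⟨⟨ψ, (mem_QD_iff β heq (p : ℕ) hpm ψ).1 (h1 ▸ hv)⟩, ?_⟩
    exact Subtype.ext h1

end der

/-- **BLOCK DER.** -/
theorem der : StmtDer := by
  classical
  intro k L _ _ _ _ _ _ Ω hst hk hcard B hB
  -- the action
  let A : MulAction (L ≃ₐ[k] L) {x // x ∈ Ω} :=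
    { smul := fun g x => ⟨g x.1, hst g x.1 x.2⟩
      one_smul := fun x => rfl
      mul_smul := fun g h x => rfl }
  -- integers
  obtain ⟨m₀, hm0, hm⟩ := exists_integral_multiples ℤ ℚ Ω
  set m : ℕ := m₀.natAbs with hmd
  have hm0' : m ≠ 0 := Int.natAbs_ne_zero.2 hm0
  have hmint : ∀ x ∈ Ω, IsIntegral ℤ ((m : L) * x) := by
    intro x hx
    have h1 := hm x hx
    rw [zsmul_eq_mul] at h1
    rcases Int.natAbs_eq m₀ with h2 | h2
    · have e : (m : L) * x = (m₀ : L) * x := by
        rw [h2, ← hmd]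
        push_cast
        rfl
      rw [e]
      exact h1
    · have e : (m : L) * x = -((m₀ : L) * x) := by
        rw [h2, ← hmd]
        push_cast
        ring
      rw [e]
      exact h1.neg
  let β : {x // x ∈ Ω} → 𝓞 L := fun x => ⟨(m : L) * x.1, hmint x.1 x.2⟩
  have hmL : (m : L) ≠ 0 := by exact_mod_cast hm0'
  have hβ : Function.Injective β := by
    intro x y h
    have h1 : (m : L) * x.1 = (m : L) * y.1 := congrArg (fun z : 𝓞 L => (z : L)) h
    exact Subtype.ext (mul_left_cancel₀ hmL h1)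
  have heq : ∀ (g : L ≃ₐ[k] L) (y : {x // x ∈ Ω}), β (g • y) = g • β y := by
    intro g y
    apply RingOfIntegers.ext
    change (m : L) * g y.1 = g ((m : L) * y.1)
    rw [map_mul, map_natCast]
  obtain ⟨C, hC⟩ := density (k := k) β hβ heq
  have hd0 : 0 < d0 k L {x // x ∈ Ω} := by
    obtain ⟨g, hg⟩ := exists_free (G := L ≃ₐ[k] L) (Ω := {x // x ∈ Ω}) (by
      rw [Nat.card_eq_fintype_card, Fintype.card_coe]
      exact hcard) (by
      intro ω
      by_contra hcon
      push Not at hcon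
      have h1 : ω.1 ∈ Set.range (algebraMap k L) := by
        rw [IsGalois.mem_range_algebraMap_iff_fixed]
        exact fun g => congrArg Subtype.val (hcon g)
      obtain ⟨a, ha⟩ := h1
      exact hk ω.1 ω.2 a ha.symm)
    unfold d0
    have h1 : 0 < Nat.card {g : L ≃ₐ[k] L // ∀ ω : {x // x ∈ Ω}, g • ω ≠ ω} := by
      have : Nonempty {g : L ≃ₐ[k] L // ∀ ω : {x // x ∈ Ω}, g • ω ≠ ω} := ⟨⟨g, hg⟩⟩
      exact Nat.card_pos
    have h2 : 0 < Nat.card (L ≃ₐ[k] L) := Nat.card_pos
    positivity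
  obtain ⟨C₁, h1⟩ := density_of_dirichlet B hB (QD k β m) (fun v hv => hv.1)
    (fun p => ZZ (k := k) β p) m.divisors (δ := d0 k L {x // x ∈ Ω}) (C := C) (by
      intro p hp
      rw [Nat.mem_divisors, not_and_or] at hp
      have hpN : ¬ (p : ℕ) ∣ m := by
        rcases hp with hp | hp
        · exact hp
        · exact absurd hm0' hp
      exact card_QD β heq p hpN) (by
      filter_upwards [hC] with s hs
      exact hs.2)
  refine ⟨d0 k L {x // x ∈ Ω}, C₁, QD k β m, hd0, ?_, h1⟩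
  rintro v ⟨hpr, hpm, hv⟩ P hP θ hθ hlt
  set p := nm v with hp
  refine hv P hP ⟨θ, hθ⟩ ?_
  have hpP : (p : 𝓞 L) ∈ P.asIdeal := by
    have h2 : (p : 𝓞 k) ∈ v.asIdeal := Ideal.absNorm_mem v.asIdeal
    rw [← hP, Ideal.mem_comap, map_natCast] at h2
    exact h2
  rw [← HeightOneSpectrum.valuation_lt_one_iff_mem (K := L) P]
  have e : algebraMap (𝓞 L) L (β ⟨θ, hθ⟩ ^ p - β ⟨θ, hθ⟩) =
      (m : L) ^ p * (θ ^ p - θ) + ((m : L) ^ (p - 1) - 1) * ((m : L) * θ) := by
    rw [map_sub, map_pow]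
    change ((m : L) * θ) ^ p - (m : L) * θ = _
    obtain ⟨r, hr⟩ : ∃ r, p = r + 1 := ⟨p - 1, by have := hpr.pos; omega⟩
    rw [hr]
    simp only [Nat.add_sub_cancel]
    ring
  change P.valuation L (algebraMap (𝓞 L) L (β ⟨θ, hθ⟩ ^ p - β ⟨θ, hθ⟩)) < 1
  rw [e]
  refine lt_of_le_of_lt (Valuation.map_add _ _ _) (max_lt ?_ ?_)
  · rw [map_mul]
    have h2 : P.valuation L ((m : L) ^ p) ≤ 1 := by
      have : (m : L) ^ p = algebraMap (𝓞 L) L ((m : 𝓞 L) ^ p) := by simp
      rw [this]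
      exact P.valuation_le_one _
    calc P.valuation L ((m : L) ^ p) * P.valuation L (θ ^ p - θ) ≤ 1 * P.valuation L (θ ^ p - θ) := by gcongr
      _ < 1 := by rw [one_mul]; exact hlt
  · obtain ⟨c, hc⟩ : (p : ℤ) ∣ (m : ℤ) ^ (p - 1) - 1 := by
      have h2 : (m : ZMod p) ≠ 0 := by
        rw [Ne, ZMod.natCast_eq_zero_iff]
        exact hpm
      have hpf : Fact p.Prime := ⟨hpr⟩
      have h3 := ZMod.pow_card_sub_one_eq_one h2
      rw [← ZMod.intCast_zmod_eq_zero_iff_dvd]
      push_cast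
      rw [h3, sub_self]
    have e2 : ((m : L) ^ (p - 1) - 1) * ((m : L) * θ) = algebraMap (𝓞 L) L ((p : 𝓞 L) * ((c : 𝓞 L) * β ⟨θ, hθ⟩)) := by
      have h2 : (m : L) ^ (p - 1) - 1 = (p : L) * (c : L) := by exact_mod_cast congrArg (fun z : ℤ => (z : L)) hc
      rw [h2, map_mul, map_mul, map_natCast, map_intCast, mul_assoc]
      rfl
    rw [e2]
    refine (HeightOneSpectrum.valuation_lt_one_iff_mem (K := L) P _).2 ?_
    exact Ideal.mul_mem_right _ _ hpP

end

end Pool.Agent.Helper22.HG
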